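import Pool.Agent.H95.RQ.Targets2

/-!
# Finiteness of residue class groups
-/

set_option autoImplicit false

open NumberField NumberField.InfinitePlace IsDedekindDomain

namespace Pool.Agent.H69.RQ

open Pool.Agent.H95.RQ

variable {K : Type} [Field K] [NumberField K]

lemma approx (P : HeightOneSpectrum (𝓞 K)) (k : ℕ) {x : K} (hx : P.valuation K x ≤ 1) :
    ∃ a : 𝓞 K, P.valuation K (algebraMap (𝓞 K) K a - x) ≤ WithZero.exp (-(k + 1 : ℤ)) := by
  obtain ⟨a, ha⟩ := P.exists_valuation_sub_lt_of_integer (K := K) hx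
    (Units.mk0 (WithZero.exp (-(k + 1 : ℤ))) WithZero.exp_ne_zero)
  exact ⟨a, ha.le⟩

lemma val_mem (P : HeightOneSpectrum (𝓞 K)) (k : ℕ) {a b : 𝓞 K}
    (h : a - b ∈ P.asIdeal ^ (k + 1)) :
    P.valuation K (algebraMap (𝓞 K) K a - algebraMap (𝓞 K) K b) ≤
      WithZero.exp (-(k + 1 : ℤ)) := by
  rw [← map_sub, HeightOneSpectrum.valuation_of_algebraMap]
  have h1 := (P.intValuation_le_pow_iff_mem (a - b) (k + 1)).2 h
  push_cast at h1
  exact h1

lemma fup_one (P : HeightOneSpectrum (𝓞 K)) (k : ℕ) : (Uk P k).relIndex (UU {P}) ≠ 0 := by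
  have hfin : Finite (𝓞 K ⧸ P.asIdeal ^ (k + 1)) :=
    Ideal.finiteQuotientOfFreeOfNeBot _ (pow_ne_zero _ P.ne_bot)
  have h1 : ∀ x : UU ({P} : Finset (HeightOneSpectrum (𝓞 K))),
      P.valuation K ((x : Kˣ) : K) = 1 := fun x => x.2 P (Finset.mem_singleton_self P)
  have h2 : ∀ x : UU ({P} : Finset (HeightOneSpectrum (𝓞 K))), ∃ a : 𝓞 K,
      P.valuation K (algebraMap (𝓞 K) K a - ((x : Kˣ) : K)) ≤ WithZero.exp (-(k + 1 : ℤ)) :=
    fun x => approx P k (h1 x).le
  choose a ha using h2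
  have hq : Finite (UU ({P} : Finset (HeightOneSpectrum (𝓞 K))) ⧸
      (Uk P k).subgroupOf (UU {P})) := by
    refine Finite.of_injective
      (fun q => (Ideal.Quotient.mk (P.asIdeal ^ (k + 1)) (a q.out))) ?_
    intro q q' h
    simp only at h
    rw [Ideal.Quotient.mk_eq_mk_iff_sub_mem] at h
    rw [← q.out_eq', ← q'.out_eq', QuotientGroup.eq]
    rw [Subgroup.mem_subgroupOf]
    set x := q.out
    set x' := q'.out
    have h3 : P.valuation K (((x' : Kˣ) : K) - ((x : Kˣ) : K)) ≤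
        WithZero.exp (-(k + 1 : ℤ)) := by
      have e : (((x' : Kˣ) : K) - ((x : Kˣ) : K)) =
          -((algebraMap (𝓞 K) K (a x') - ((x' : Kˣ) : K)) +
            (algebraMap (𝓞 K) K (a x) - algebraMap (𝓞 K) K (a x')) -
            (algebraMap (𝓞 K) K (a x) - ((x : Kˣ) : K))) := by ring
      rw [e, Valuation.map_neg]
      refine (Valuation.map_sub _ _ _).trans (max_le ?_ (ha x))
      exact (Valuation.map_add _ _ _).trans (max_le (ha x') (val_mem P k h))
    change P.valuation K ((((x⁻¹ * x' : UU ({P} : Finset (HeightOneSpectrum (𝓞 K)))) : Kˣ) : K) -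
      1) ≤ WithZero.exp (-(k + 1 : ℤ))
    have h4 : ((((x⁻¹ * x' : UU ({P} : Finset (HeightOneSpectrum (𝓞 K)))) : Kˣ) : K) - 1) =
        ((x : Kˣ) : K)⁻¹ * (((x' : Kˣ) : K) - ((x : Kˣ) : K)) := by
      push_cast
      have hx0 : ((x : Kˣ) : K) ≠ 0 := Units.ne_zero _
      rw [mul_sub, inv_mul_cancel₀ hx0]
    rw [h4, map_mul, map_inv₀, h1 x, inv_one, one_mul]
    exact h3
  exact Subgroup.index_ne_zero_of_finite

theorem pf_FUP : T_FUP := by
  classical
  intro K _ _ T k
  induction T using Finset.induction_on with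
  | empty =>
    have h : (⨅ P ∈ (∅ : Finset (HeightOneSpectrum (𝓞 K))), Uk P k) = ⊤ := by simp
    rw [h, Subgroup.relIndex_top_left]
    exact one_ne_zero
  | insert P T _ ih =>
    rw [Finset.iInf_insert]
    refine Subgroup.relIndex_inf_ne_zero ?_ ?_
    · intro h0
      refine fup_one P k (Subgroup.relIndex_eq_zero_of_le_right ?_ h0)
      intro x hx Q hQ
      rw [Finset.mem_singleton] at hQ
      rw [hQ]
      exact hx P (Finset.mem_insert_self P T)
    · intro h0
      refine ih (Subgroup.relIndex_eq_zero_of_le_right ?_ h0)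
      intro x hx Q hQ
      exact hx Q (Finset.mem_insert_of_mem hQ)

end Pool.Agent.H69.RQ
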