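import Pool.Agent.H95.RQ.Targets1

/-!
# Herbrand quotients and equivariant injective maps
-/

set_option autoImplicit false

namespace Pool.Agent.H69.RQ

open Pool.Agent.H95.RQ

variable {A A' : Type} [CommGroup A] [CommGroup A'] {s : A →* A} {s' : A' →* A'} {Φ : A →* A'}

lemma iter_eq (h : ∀ a, Φ (s a) = s' (Φ a)) (i : ℕ) (a : A) : Φ (s^[i] a) = s'^[i] (Φ a) :=
  (Function.Semiconj.iterate_right (f := Φ) (ga := s) (gb := s') h i).eq a

lemma nm_comm (h : ∀ a, Φ (s a) = s' (Φ a)) (n : ℕ) :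
    (nm s' n).comp Φ = Φ.comp (nm s n) := by
  ext a
  change ∏ i ∈ Finset.range n, s'^[i] (Φ a) = Φ (∏ i ∈ Finset.range n, s^[i] a)
  rw [map_prod]
  exact Finset.prod_congr rfl fun i _ => (iter_eq h i a).symm

lemma dl_comm (h : ∀ a, Φ (s a) = s' (Φ a)) : (dl s').comp Φ = Φ.comp (dl s) := by
  ext a
  change s' (Φ a) / Φ a = Φ (s a / a)
  rw [map_div, h]

lemma inf_ker {f : A →* A} {f' : A' →* A'} (h : f'.comp Φ = Φ.comp f)
    (hΦ : Function.Injective Φ) (B : Subgroup A) :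
    (B.map Φ) ⊓ f'.ker = (B ⊓ f.ker).map Φ := by
  ext x
  rw [Subgroup.mem_inf, Subgroup.mem_map, Subgroup.mem_map, MonoidHom.mem_ker]
  constructor
  · rintro ⟨⟨b, hb, rfl⟩, hx⟩
    refine ⟨b, Subgroup.mem_inf.2 ⟨hb, ?_⟩, rfl⟩
    rw [MonoidHom.mem_ker]
    have h1 : f' (Φ b) = Φ (f b) := DFunLike.congr_fun h b
    rw [h1] at hx
    exact hΦ (hx.trans (map_one Φ).symm)
  · rintro ⟨b, hb, rfl⟩
    obtain ⟨hb, hk⟩ := Subgroup.mem_inf.1 hb
    refine ⟨⟨b, hb, rfl⟩, ?_⟩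
    have h1 : f' (Φ b) = Φ (f b) := DFunLike.congr_fun h b
    rw [h1, MonoidHom.mem_ker.1 hk, map_one]

lemma map_comm {f : A →* A} {f' : A' →* A'} (h : f'.comp Φ = Φ.comp f) (B : Subgroup A) :
    (B.map Φ).map f' = (B.map f).map Φ := by
  rw [Subgroup.map_map, Subgroup.map_map, h]

theorem pf_HQM : T_HQM := by
  intro A A' _ _ s s' n Φ B hΦ h
  constructor
  · unfold h0
    rw [map_comm (nm_comm h n), inf_ker (dl_comm h) hΦ,
      Subgroup.relIndex_map_map_of_injective _ _ hΦ]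
  · unfold h1
    rw [map_comm (dl_comm h), inf_ker (nm_comm h n) hΦ,
      Subgroup.relIndex_map_map_of_injective _ _ hΦ]

end Pool.Agent.H69.RQ
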