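import Pool.Agent.H95.RQ.Targets2

/-!
# The local norm index
-/

set_option autoImplicit false

open NumberField NumberField.InfinitePlace IsDedekindDomain

namespace Pool.Agent.H69.RQ

open Pool.Agent.H95.RQ

lemma comap_sup {A B : Type} [CommGroup A] [CommGroup B] (φ : A →* B) (N : Subgroup A)
    (V : Subgroup B) : (N.map φ ⊔ V).comap φ = N ⊔ V.comap φ := by
  ext x
  rw [Subgroup.mem_comap, Subgroup.mem_sup, Subgroup.mem_sup]
  constructor
  · rintro ⟨_, ⟨n, hn, rfl⟩, v, hv, h⟩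
    refine ⟨n, hn, x / n, ?_, mul_div_cancel n x⟩
    rw [Subgroup.mem_comap, map_div, ← h, mul_div_cancel_left]
    exact hv
  · rintro ⟨n, hn, v, hv, rfl⟩
    exact ⟨φ n, ⟨n, hn, rfl⟩, φ v, hv, (map_mul φ n v).symm⟩

lemma relIndex_sup_range {A B : Type} [CommGroup A] [CommGroup B] (φ : A →* B) (N : Subgroup A)
    (V : Subgroup B) :
    (N.map φ ⊔ V).relIndex (φ.range ⊔ V) = (N ⊔ V.comap φ).index := by
  have h1 : φ.range ⊔ V = φ.range ⊔ (N.map φ ⊔ V) := by
    rw [← sup_assoc, sup_eq_left.2 (Subgroup.map_le_range φ N)]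
  rw [h1, Subgroup.relIndex_sup_right, ← comap_sup, Subgroup.index_comap]

theorem pf_LOC (h_VQH : T_VQH) (h_VH0 : T_VH0) (h_VSG : T_VSG) (h_LAM : T_LAM) (h_NMN : T_NMN)
    (h_VAL : T_VAL) : T_LOC := by
  intro F E _ _ _ _ _ _ P σ hσ
  obtain ⟨j₁, hj₁⟩ := h_VQH F E P σ hσ
  obtain ⟨j₂, hj₂⟩ := h_VH0 F E P σ hσ
  obtain ⟨j₃, hj₃⟩ := h_VSG F E P
  obtain ⟨-, -, -, -, hg, -, ⟨t, ht⟩, -⟩ := h_LAM F E P
  obtain ⟨-, -, hnm, -⟩ := h_NMN F E σ hσ
  obtain ⟨-, -, -, -, -, hfin, -⟩ := h_VAL F E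
  obtain ⟨hne, hf, hdvd⟩ := hfin P
  have hcard : 0 < Nat.card (Ab F E P) := Nat.card_pos
  have hn : 0 < Module.finrank F E := Module.finrank_pos
  have hnP : 0 < nP F E P := Nat.div_pos (Nat.le_of_dvd hn hdvd) hcard
  refine ⟨(max (max j₁ j₂) j₃ + t - 1).toNat, fun k hk => ?_⟩
  have hk' : max (max j₁ j₂) j₃ + t - 1 ≤ (k : ℤ) := by
    have := Int.self_le_toNat (max (max j₁ j₂) j₃ + t - 1)
    omega
  set j : ℤ := (k : ℤ) + 1 - t with hj
  have h1 : j₁ ≤ j := by
    have := (le_max_left j₁ j₂).trans (le_max_left (max j₁ j₂) j₃)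
    omega
  have h2 : j₂ ≤ j := by
    have := (le_max_right j₁ j₂).trans (le_max_left (max j₁ j₂) j₃)
    omega
  have h3 : j₃ ≤ j := by
    have := le_max_right (max j₁ j₂) j₃
    omega
  set ι : Fˣ →* Eˣ := Units.map (algebraMap F E : F →* E) with hι
  have hιv : ∀ a : Fˣ, ((ι a : Eˣ) : E) = algebraMap F E (a : F) := fun a => rfl
  have hV := hj₃ j h3
  -- the group `V_j` is stable
  have hstab : ∀ x ∈ VV E P j, us σ x ∈ VV E P j := by
    intro x hx
    rw [hV] at hx ⊢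
    have e : ((us σ x : Eˣ) : E) - 1 = σ ((x : E) - 1) := by
      rw [map_sub, map_one]
      rfl
    rw [e]
    exact hg j σ _ hx
  -- the fixed points modulo `V_j`
  have hfix : (VV E P j).comap (dl (us σ)) = ι.range ⊔ VV E P j := by
    ext x
    rw [Subgroup.mem_comap, Subgroup.mem_sup]
    constructor
    · intro hx
      obtain ⟨a, ha⟩ := hj₂ j h2 x hx
      exact ⟨ι a, ⟨a, rfl⟩, _, ha, mul_div_cancel _ x⟩
    · rintro ⟨_, ⟨a, rfl⟩, v, hv, rfl⟩
      rw [map_mul]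
      refine Subgroup.mul_mem _ ?_ ?_
      · have e : dl (us σ) (ι a) = 1 := by
          change us σ (ι a) / ι a = 1
          rw [div_eq_one]
          ext
          change σ (algebraMap F E (a : F)) = algebraMap F E (a : F)
          exact σ.commutes _
        rw [e]
        exact Subgroup.one_mem _
      · change us σ v / v ∈ VV E P j
        exact Subgroup.div_mem _ (hstab v hv) hv
  -- the norms
  have hnorm : (nm (us σ) (Module.finrank F E)).range = (NN F E).map ι := by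
    ext y
    rw [Subgroup.mem_map, MonoidHom.mem_range]
    constructor
    · rintro ⟨x, rfl⟩
      refine ⟨Units.map (Algebra.norm F : E →* F) x, ⟨x, rfl⟩, ?_⟩
      ext
      rw [hnm x]
      rfl
    · rintro ⟨_, ⟨x, rfl⟩, rfl⟩
      refine ⟨x, ?_⟩
      ext
      rw [hnm x]
      rfl
  have hU : (VV E P j).comap ι = Uk P k := by
    ext a
    rw [Subgroup.mem_comap, hV, hιv]
    have e : algebraMap F E (a : F) - 1 = algebraMap F E ((a : F) - 1) := by
      rw [map_sub, map_one]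
    rw [e, ht j]
    have e2 : -(j + t) = -((k : ℤ) + 1) := by
      rw [hj]
      ring
    rw [e2]
    rfl
  have hmain : h0q (us σ) (Module.finrank F E) (VV E P j) = (NN F E ⊔ Uk P k).index := by
    unfold h0q
    rw [hfix, hnorm, relIndex_sup_range, hU]
  obtain ⟨h4, h5⟩ := hj₁ j h1
  rw [hmain] at h5
  rw [h5]
  exact ⟨Nat.mul_ne_zero hnP.ne' h4, Nat.le_mul_of_pos_right _ (Nat.pos_of_ne_zero h4)⟩

end Pool.Agent.H69.RQ
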